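import Mathlib

namespace Pool.Agent.Results.MP_16c542_al.NotLocality

open TensorProduct

/-- `(A, r)`, for a subspace `A` of `M`, is a locality vector space: the polar set in `A` of every
subset of `A` is a linear subspace. -/
def PolarsAreSubspaces (K : Type) [Field K] {M : Type} [AddCommGroup M] [Module K M]
    (A : Submodule K M) (r : M → M → Prop) : Prop :=
  ∀ S : Set M, S ⊆ A → ∃ U : Submodule K M, (U : Set M) = {x | x ∈ A ∧ ∀ y ∈ S, r x y}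

/-- The locality tensor product, as the subspace of `V ⊗ W` spanned by the `v ⊗ w` with
`v` independent of `w`. -/
def locTensor {K : Type} [Field K] {E : Type} [AddCommGroup E] [Module K E] (r : E → E → Prop)
    (V W : Submodule K E) : Submodule K (V ⊗[K] W) :=
  Submodule.span K {X | ∃ (v : V) (w : W), r v w ∧ X = v ⊗ₜ[K] w}

/-- The quotient locality relation on the locality tensor product. -/
def quotRel {K : Type} [Field K] {E : Type} [AddCommGroup E] [Module K E] (r : E → E → Prop)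
    (V W : Submodule K E) (X Y : V ⊗[K] W) : Prop :=
  ∃ (m n : ℕ) (v : Fin m → V) (w : Fin m → W) (v' : Fin n → V) (w' : Fin n → W),
    X = ∑ i, v i ⊗ₜ[K] w i ∧ Y = ∑ j, v' j ⊗ₜ[K] w' j ∧
    (∀ i, r (v i) (w i)) ∧ (∀ j, r (v' j) (w' j)) ∧
    ∀ i j, r (v i) (v' j) ∧ r (v i) (w' j) ∧ r (w i) (v' j) ∧ r (w i) (w' j)

section
variable {K : Type} [Field K]

def T0 (a b c a' b' c' : K) : Prop :=
  (a = 0 ∧ b = 0 ∧ c = 0) ∨ (a' = 0 ∧ b' = 0 ∧ c' = 0) ∨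
    (¬ (b = 0 ∧ c = 0) ∧ ¬ (b' = 0 ∧ c' = 0) ∧ a * b' = a' * b ∧ a * c' = a' * c ∧ b * c' = b' * c)

theorem T0_symm {a b c a' b' c' : K} (h : T0 a b c a' b' c') : T0 a' b' c' a b c := by
  unfold T0 at *
  grind

theorem T0_add {a b c a' b' c' x y z : K} (h : T0 a b c x y z) (h' : T0 a' b' c' x y z) :
    T0 (a + a') (b + b') (c + c') x y z := by
  rcases h with ⟨rfl, rfl, rfl⟩ | h | h
  · simpa using h'
  · exact Or.inr (Or.inl h)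
  rcases h' with ⟨rfl, rfl, rfl⟩ | h' | h'
  · simp only [add_zero]; exact Or.inr (Or.inr h)
  · exact Or.inr (Or.inl h')
  obtain ⟨-, h0, h1, h2, h3⟩ := h
  obtain ⟨-, -, h1', h2', h3'⟩ := h'
  by_cases hz : b + b' = 0 ∧ c + c' = 0
  · refine Or.inl ⟨?_, hz⟩
    by_contra hne
    apply h0
    constructor
    · apply mul_left_cancel₀ hne
      linear_combination h1 + h1' + x * hz.1
    · apply mul_left_cancel₀ hne
      linear_combination h2 + h2' + x * hz.2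
  · exact Or.inr (Or.inr ⟨hz, h0, by linear_combination h1 + h1', by linear_combination h2 + h2',
      by linear_combination h3 + h3'⟩)

theorem T0_smul {a b c x y z : K} (k : K) (h : T0 a b c x y z) :
    T0 (k * a) (k * b) (k * c) x y z := by
  unfold T0 at *
  grind

def R (e0 e1 e2 e3 e4 e5 e6 y0 y1 y2 y3 y4 y5 y6 : K) : Prop :=
  (e0 = 0 ∧ e1 = 0 ∧ e2 = 0 ∧ e3 = 0 ∧ e4 = 0 ∧ e5 = 0 ∧ e6 = 0) ∨
  (y0 = 0 ∧ y1 = 0 ∧ y2 = 0 ∧ y3 = 0 ∧ y4 = 0 ∧ y5 = 0 ∧ y6 = 0) ∨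
  (e4 = 0 ∧ e5 = 0 ∧ e6 = 0 ∧ y4 = 0 ∧ y5 = 0 ∧ y6 = 0 ∧ T0 e0 e1 e2 y0 y1 y2) ∨
  (e1 = 0 ∧ e2 = 0 ∧ e3 = 0 ∧ y1 = 0 ∧ y2 = 0 ∧ y3 = 0 ∧ T0 e0 e4 e5 y0 y4 y5) ∨
  (e1 = 0 ∧ e2 = 0 ∧ e3 = 0 ∧ e4 = 0 ∧ e5 = 0 ∧ e6 = 0 ∧
    y0 = 0 ∧ y1 = 0 ∧ y2 = 0 ∧ y4 = 0 ∧ y5 = 0) ∨
  (y1 = 0 ∧ y2 = 0 ∧ y3 = 0 ∧ y4 = 0 ∧ y5 = 0 ∧ y6 = 0 ∧
    e0 = 0 ∧ e1 = 0 ∧ e2 = 0 ∧ e4 = 0 ∧ e5 = 0)

def rel (e y : Fin 7 → K) : Prop :=
  R (e 0) (e 1) (e 2) (e 3) (e 4) (e 5) (e 6) (y 0) (y 1) (y 2) (y 3) (y 4) (y 5) (y 6)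

theorem rel_symm {e y : Fin 7 → K} (h : rel e y) : rel y e := by
  unfold rel R at *
  rcases h with h | h | ⟨a, b, c, d, e, f, h⟩ | ⟨a, b, c, d, e, f, h⟩ | h | h
  · exact Or.inr (Or.inl h)
  · exact Or.inl h
  · exact Or.inr (Or.inr (Or.inl ⟨d, e, f, a, b, c, T0_symm h⟩))
  · exact Or.inr (Or.inr (Or.inr (Or.inl ⟨d, e, f, a, b, c, T0_symm h⟩)))
  · exact Or.inr (Or.inr (Or.inr (Or.inr (Or.inr h))))
  · exact Or.inr (Or.inr (Or.inr (Or.inr (Or.inl h))))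

theorem R_smul {e0 e1 e2 e3 e4 e5 e6 y0 y1 y2 y3 y4 y5 y6 : K} (k : K)
    (h : R e0 e1 e2 e3 e4 e5 e6 y0 y1 y2 y3 y4 y5 y6) :
    R (k * e0) (k * e1) (k * e2) (k * e3) (k * e4) (k * e5) (k * e6) y0 y1 y2 y3 y4 y5 y6 := by
  unfold R at *
  rcases h with h | h | h | h | h | h
  · simp [h]
  · simp [h]
  · have := T0_smul k h.2.2.2.2.2.2; simp [h, this]
  · have := T0_smul k h.2.2.2.2.2.2; simp [h, this]
  · simp [h]
  · simp [h]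

theorem R_add {e0 e1 e2 e3 e4 e5 e6 f0 f1 f2 f3 f4 f5 f6 y0 y1 y2 y3 y4 y5 y6 : K}
    (h : R e0 e1 e2 e3 e4 e5 e6 y0 y1 y2 y3 y4 y5 y6)
    (h' : R f0 f1 f2 f3 f4 f5 f6 y0 y1 y2 y3 y4 y5 y6) :
    R (e0 + f0) (e1 + f1) (e2 + f2) (e3 + f3) (e4 + f4) (e5 + f5) (e6 + f6)
      y0 y1 y2 y3 y4 y5 y6 := by
  rcases h with ⟨rfl, rfl, rfl, rfl, rfl, rfl, rfl⟩ | h | h
  · simpa using h'
  · exact Or.inr (Or.inl h)
  rcases h' with ⟨rfl, rfl, rfl, rfl, rfl, rfl, rfl⟩ | h' | h'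
  · simp only [add_zero]; exact Or.inr (Or.inr h)
  · exact Or.inr (Or.inl h')
  rcases h with h | h | h | h <;> rcases h' with h' | h' | h' | h'
  · have := T0_add h.2.2.2.2.2.2 h'.2.2.2.2.2.2
    unfold R; simp [h, h', this]
  · unfold R T0 at *; grind
  · unfold R T0 at *; grind
  · unfold R T0 at *; grind
  · unfold R T0 at *; grind
  · have := T0_add h.2.2.2.2.2.2 h'.2.2.2.2.2.2
    unfold R; simp [h, h', this]
  all_goals (unfold R T0 at *; grind)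

theorem rel_add {e f y : Fin 7 → K} (h : rel e y) (h' : rel f y) : rel (e + f) y := R_add h h'

theorem rel_smul {e y : Fin 7 → K} (k : K) (h : rel e y) : rel (k • e) y := R_smul k h

theorem rel_zero (y : Fin 7 → K) : rel 0 y := Or.inl ⟨rfl, rfl, rfl, rfl, rfl, rfl, rfl⟩

def pol (y : Fin 7 → K) : Submodule K (Fin 7 → K) where
  carrier := {e | rel e y}
  zero_mem' := rel_zero y
  add_mem' := rel_add
  smul_mem' := fun k _ h => rel_smul k h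

theorem polars : PolarsAreSubspaces K (⊤ : Submodule K (Fin 7 → K)) rel := by
  intro S _
  refine ⟨⨅ y ∈ S, pol y, ?_⟩
  ext x
  simp [pol, Submodule.mem_iInf]

abbrev TT (K : Type) [Field K] := (⊤ : Submodule K (Fin 7 → K))

def vec (a b c d e f g : K) : TT K := ⟨![a, b, c, d, e, f, g], trivial⟩

/-- contraction with the coordinate `k` on the right factor -/
noncomputable def contr (k : Fin 7) : TT K ⊗[K] TT K →ₗ[K] (Fin 7 → K) :=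
  TensorProduct.lift (LinearMap.mk₂ K (fun v w => (w.1 k) • v.1)
    (fun a b c => by simp) (fun a b c => by simp [smul_comm a]) (fun a b c => by simp [add_smul])
    (fun a b c => by simp [mul_smul]))

theorem contr_tmul (k : Fin 7) (v w : TT K) : contr k (v ⊗ₜ[K] w) = (w.1 k) • v.1 := rfl

theorem third {M : Type} [AddCommGroup M] [Module K M] (p q r : M) :
    p ⊗ₜ[K] p = (-q) ⊗ₜ[K] q + (-r) ⊗ₜ[K] r + (p + q) ⊗ₜ[K] (p + q) + (p + r) ⊗ₜ[K] (p + r) +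
      (q + r) ⊗ₜ[K] (q + r) + (-(p + q + r)) ⊗ₜ[K] (p + q + r) := by
  simp only [tmul_add, add_tmul, neg_tmul]
  abel

theorem Y1 : (vec 1 0 0 0 0 0 0 : TT K) ⊗ₜ[K] (vec 1 0 0 0 0 0 0 : TT K) =
    ∑ j : Fin 6, (![vec 0 (-1) 0 0 0 0 0, vec 0 0 (-1) 0 0 0 0, vec 1 1 0 0 0 0 0,
      vec 1 0 1 0 0 0 0, vec 0 1 1 0 0 0 0, vec (-1) (-1) (-1) 0 0 0 0] j : TT K) ⊗ₜ[K]
      (![vec 0 1 0 0 0 0 0, vec 0 0 1 0 0 0 0, vec 1 1 0 0 0 0 0,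
      vec 1 0 1 0 0 0 0, vec 0 1 1 0 0 0 0, vec 1 1 1 0 0 0 0] j : TT K) := by
  rw [third (vec 1 0 0 0 0 0 0 : TT K) (vec 0 1 0 0 0 0 0) (vec 0 0 1 0 0 0 0)]
  simp only [Fin.sum_univ_six, Matrix.cons_val]
  refine congrArg₂ (· + ·) (congrArg₂ (· + ·) (congrArg₂ (· + ·) (congrArg₂ (· + ·)
    (congrArg₂ (· + ·) ?_ ?_) ?_) ?_) ?_) ?_ <;>
  · refine congrArg₂ (fun a b => a ⊗ₜ[K] b) ?_ ?_ <;>
    · apply Subtype.ext; funext i; fin_cases i <;> simp [vec]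

theorem Y2 : (vec 1 0 0 0 0 0 0 : TT K) ⊗ₜ[K] (vec 1 0 0 0 0 0 0 : TT K) =
    ∑ j : Fin 6, (![vec 0 0 0 0 (-1) 0 0, vec 0 0 0 0 0 (-1) 0, vec 1 0 0 0 1 0 0,
      vec 1 0 0 0 0 1 0, vec 0 0 0 0 1 1 0, vec (-1) 0 0 0 (-1) (-1) 0] j : TT K) ⊗ₜ[K]
      (![vec 0 0 0 0 1 0 0, vec 0 0 0 0 0 1 0, vec 1 0 0 0 1 0 0,
      vec 1 0 0 0 0 1 0, vec 0 0 0 0 1 1 0, vec 1 0 0 0 1 1 0] j : TT K) := by
  rw [third (vec 1 0 0 0 0 0 0 : TT K) (vec 0 0 0 0 1 0 0) (vec 0 0 0 0 0 1 0)]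
  simp only [Fin.sum_univ_six, Matrix.cons_val]
  refine congrArg₂ (· + ·) (congrArg₂ (· + ·) (congrArg₂ (· + ·) (congrArg₂ (· + ·)
    (congrArg₂ (· + ·) ?_ ?_) ?_) ?_) ?_) ?_ <;>
  · refine congrArg₂ (fun a b => a ⊗ₜ[K] b) ?_ ?_ <;>
    · apply Subtype.ext; funext i; fin_cases i <;> simp [vec]

theorem Q1 : quotRel rel (TT K) (TT K) (vec 0 0 0 1 0 0 0 ⊗ₜ[K] vec 0 0 0 1 0 0 0)
    (vec 1 0 0 0 0 0 0 ⊗ₜ[K] vec 1 0 0 0 0 0 0) := by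
  refine ⟨1, 6, fun _ => vec 0 0 0 1 0 0 0, fun _ => vec 0 0 0 1 0 0 0, _, _, by simp, Y1,
    fun _ => ?_, fun j => ?_, fun _ j => ?_⟩
  · simp [rel, R, T0, vec]
  · fin_cases j <;> simp [rel, R, T0, vec]
  · fin_cases j <;> simp [rel, R, T0, vec]

theorem Q2 : quotRel rel (TT K) (TT K) (vec 0 0 0 0 0 0 1 ⊗ₜ[K] vec 0 0 0 0 0 0 1)
    (vec 1 0 0 0 0 0 0 ⊗ₜ[K] vec 1 0 0 0 0 0 0) := by
  refine ⟨1, 6, fun _ => vec 0 0 0 0 0 0 1, fun _ => vec 0 0 0 0 0 0 1, _, _, by simp, Y2,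
    fun _ => ?_, fun j => ?_, fun _ j => ?_⟩
  · simp [rel, R, T0, vec]
  · fin_cases j <;> simp [rel, R, T0, vec]
  · fin_cases j <;> simp [rel, R, T0, vec]

theorem mem_loc {X Y : TT K ⊗[K] TT K} (h : quotRel rel (TT K) (TT K) X Y) :
    X ∈ locTensor rel (TT K) (TT K) ∧ Y ∈ locTensor rel (TT K) (TT K) := by
  obtain ⟨m, n, v, w, v', w', rfl, rfl, h1, h2, -⟩ := h
  exact ⟨Submodule.sum_mem _ fun i _ => Submodule.subset_span ⟨_, _, h1 i, rfl⟩,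
    Submodule.sum_mem _ fun i _ => Submodule.subset_span ⟨_, _, h2 i, rfl⟩⟩

theorem fin {y z : Fin 7 → K} (hy : rel ![0, 0, 0, 1, 0, 0, 1] y) (hz : rel ![0, 0, 0, 1, 0, 0, 1] z)
    (h : rel y z) : z 0 * y 0 = 0 := by
  simp [rel, R] at hy hz
  unfold rel R T0 at h
  grind

theorem notQ : ¬ quotRel rel (TT K) (TT K)
    (vec 0 0 0 1 0 0 0 ⊗ₜ[K] vec 0 0 0 1 0 0 0 + vec 0 0 0 0 0 0 1 ⊗ₜ[K] vec 0 0 0 0 0 0 1)
    (vec 1 0 0 0 0 0 0 ⊗ₜ[K] vec 1 0 0 0 0 0 0) := by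
  rintro ⟨m, n, v, w, v', w', hX, hY, -, h2, h3⟩
  have e : (![0, 0, 0, 1, 0, 0, 1] : Fin 7 → K) = ∑ i, ((w i).1 3 + (w i).1 6) • (v i).1 := by
    have a1 := congrArg (contr 3) hX
    have a2 := congrArg (contr 6) hX
    simp only [map_add, map_sum, contr_tmul] at a1 a2
    simp only [add_smul, Finset.sum_add_distrib, ← a1, ← a2]
    funext i; fin_cases i <;> simp [vec]
  have hp : ∀ y : Fin 7 → K, (∀ i, rel (v i) y) → rel ![0, 0, 0, 1, 0, 0, 1] y := by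
    intro y hy
    rw [e]
    exact (pol y).sum_mem fun i _ => (pol y).smul_mem _ (hy i)
  have a := congrFun (congrArg (contr 0) hY) 0
  simp only [map_sum, contr_tmul, Finset.sum_apply, Pi.smul_apply, smul_eq_mul] at a
  rw [Finset.sum_eq_zero fun j _ =>
    fin (hp _ fun i => (h3 i j).1) (hp _ fun i => (h3 i j).2.1) (h2 j)] at a
  simp [vec] at a

end

/-- Over every field, the locality tensor product need not be a locality vector space. -/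
theorem result (K : Type) [Field K] :
    ¬ ∀ (E : Type) [AddCommGroup E] [Module K E] (r : E → E → Prop),
      (∀ x y, r x y → r y x) → PolarsAreSubspaces K (⊤ : Submodule K E) r →
      ∀ V W : Submodule K E, PolarsAreSubspaces K (locTensor r V W) (quotRel r V W) := by
  intro h
  obtain ⟨U, hU⟩ := h (Fin 7 → K) rel (fun _ _ => rel_symm) polars ⊤ ⊤
    {vec 1 0 0 0 0 0 0 ⊗ₜ[K] vec 1 0 0 0 0 0 0}
    (Set.singleton_subset_iff.2 (mem_loc Q1).2)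
  have h1 : vec 0 0 0 1 0 0 0 ⊗ₜ[K] vec 0 0 0 1 0 0 0 ∈ U := by
    rw [← SetLike.mem_coe, hU]
    exact ⟨(mem_loc Q1).1, fun y hy => hy ▸ Q1⟩
  have h2 : vec 0 0 0 0 0 0 1 ⊗ₜ[K] vec 0 0 0 0 0 0 1 ∈ U := by
    rw [← SetLike.mem_coe, hU]
    exact ⟨(mem_loc Q2).1, fun y hy => hy ▸ Q2⟩
  have h3 := U.add_mem h1 h2
  rw [← SetLike.mem_coe, hU] at h3
  exact notQ (h3.2 _ rfl)

end Pool.Agent.Results.MP_16c542_al.NotLocality
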